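import Pool.Agent.Run7.h982.CF.Iface

/-!
# Piece `COMB` (helper437) of MP_c42e77_an, Q2 (helper982)
-/

set_option autoImplicit false

open Set Filter Topology

namespace Pool.Agent.Run7.h437.CF982

open Pool.Agent.Run7.h982.CF

lemma ok_same {D : ℤ} (h : D = 0 ∨ D = 1) (w : Bool) : ok D w w := by
  unfold ok
  omega

lemma ok_det {D : ℤ} (h0 : D ≠ 0) (h1 : D ≠ 1) {u v u' v' : Bool} (h : ok D u v)
    (h' : ok D u' v') : v = v' := by
  unfold ok at h h'
  cases u <;> cases v <;> cases u' <;> cases v' <;> simp [bi] at h h' ⊢ <;> omega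

lemma ok_one_false (v : Bool) : ok 1 false v := by
  unfold ok
  cases v <;> simp [bi]

lemma ok_zero_true (v : Bool) : ok 0 true v := by
  unfold ok
  cases v <;> simp [bi]

lemma ok_zero_false {v : Bool} (h : ok 0 false v) : v = false := by
  unfold ok at h
  cases v
  · rfl
  · simp [bi] at h

lemma ok_one_true {v : Bool} (h : ok 1 true v) : v = true := by
  unfold ok at h
  cases v
  · simp [bi] at h
  · rfl

/-- splice two paths which agree at `j + 1` -/
lemma splice {c : ℕ → ℤ} {e d : ℕ → Bool} (he : e ∈ PP c) (hd : d ∈ PP c) {j : ℕ}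
    (h : e (j + 1) = d (j + 1)) : (fun i => if i ≤ j + 1 then e i else d i) ∈ PP c := by
  refine ⟨?_, fun i => ?_⟩
  · show (if 0 ≤ j + 1 then e 0 else d 0) = false
    rw [if_pos (Nat.zero_le _)]
    exact he.1
  · show ok (c (i + 1) - c i) (if i ≤ j + 1 then e i else d i)
      (if i + 1 ≤ j + 1 then e (i + 1) else d (i + 1))
    rcases lt_trichotomy i (j + 1) with hi | hi | hi
    · rw [if_pos hi.le, if_pos (by omega)]
      exact he.2 i
    · subst hi
      rw [if_pos le_rfl, if_neg (by omega), h]
      exact hd.2 (j + 1)
    · rw [if_neg (by omega), if_neg (by omega)]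
      exact hd.2 i

lemma no_isolated {c : ℕ → ℤ} (hinf : (PP c).Infinite) (hEv : ¬ Ev c) {e : ℕ → Bool}
    (he : e ∈ PP c) (N : ℕ) : ∃ e' ∈ PP c, e' ≠ e ∧ ∀ j, j ≤ N → e' j = e j := by
  by_cases hI : ∀ J : ℕ, ∃ j, J ≤ j ∧ c (j + 1) - c j ≠ 0 ∧ c (j + 1) - c j ≠ 1
  · obtain ⟨j, hj, h0, h1⟩ := hI N
    have hsame : ∀ d ∈ PP c, e (j + 1) = d (j + 1) := fun d hd =>
      ok_det h0 h1 (he.2 j) (hd.2 j)
    obtain ⟨d, hd, d', hd', hne, hdd⟩ := hinf.exists_ne_map_eq_of_mapsTo
      (f := fun (d : ℕ → Bool) (i : Fin (j + 2)) => d i) (t := Set.univ)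
      (fun _ _ => Set.mem_univ _) Set.finite_univ
    have hagree : ∀ i, i ≤ j + 1 → d i = d' i := fun i hi =>
      congrFun hdd ⟨i, by omega⟩
    have hdiff : (fun i => if i ≤ j + 1 then e i else d i) ≠
        (fun i => if i ≤ j + 1 then e i else d' i) := by
      intro h
      apply hne
      funext i
      by_cases hi : i ≤ j + 1
      · exact hagree i hi
      · have h2 := congrFun h i
        simp only [if_neg hi] at h2
        exact h2
    by_cases hde : (fun i => if i ≤ j + 1 then e i else d i) = e
    · refine ⟨fun i => if i ≤ j + 1 then e i else d' i, splice he hd' (hsame d' hd'), ?_, ?_⟩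
      · intro h
        exact hdiff (hde.trans h.symm)
      · intro i hi
        show (if i ≤ j + 1 then e i else d' i) = e i
        rw [if_pos (by omega)]
    · refine ⟨fun i => if i ≤ j + 1 then e i else d i, splice he hd (hsame d hd), hde, ?_⟩
      intro i hi
      show (if i ≤ j + 1 then e i else d i) = e i
      rw [if_pos (by omega)]
  · push Not at hI
    obtain ⟨J, hJ⟩ := hI
    have hJ' : ∀ j, J ≤ j → c (j + 1) - c j = 0 ∨ c (j + 1) - c j = 1 := by
      intro j hj
      by_cases h : c (j + 1) - c j = 0
      · exact Or.inl h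
      · exact Or.inr (hJ j hj h)
    have hex : ∃ j, N ≤ j ∧ J ≤ j ∧
        ((e j = false ∧ c (j + 1) - c j = 1) ∨ (e j = true ∧ c (j + 1) - c j = 0)) := by
      by_contra hcon
      push Not at hcon
      apply hEv
      have hstep : ∀ j, N ≤ j → J ≤ j → e (j + 1) = e j ∧
          c (j + 1) - c j = bi (e j) := by
        intro j h1 h2
        obtain ⟨h3, h4⟩ := hcon j h1 h2
        have hok := he.2 j
        cases hj : e j with
        | false =>
          have h5 : c (j + 1) - c j = 0 := by
            rcases hJ' j h2 with h | h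
            · exact h
            · exact absurd h (h3 hj)
          rw [hj, h5] at hok
          exact ⟨ok_zero_false hok, by rw [h5]; rfl⟩
        | true =>
          have h5 : c (j + 1) - c j = 1 := by
            rcases hJ' j h2 with h | h
            · exact absurd h (h4 hj)
            · exact h
          rw [hj, h5] at hok
          exact ⟨ok_one_true hok, by rw [h5]; rfl⟩
      have hconst : ∀ j, max N J ≤ j → e j = e (max N J) := by
        intro j hj
        induction j, hj using Nat.le_induction with
        | base => rfl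
        | succ j hj ih =>
          rw [(hstep j ((le_max_left _ _).trans hj) ((le_max_right _ _).trans hj)).1, ih]
      refine ⟨max N J, ?_⟩
      cases hm : e (max N J) with
      | false =>
        left
        intro j hj
        have h1 := (hstep j ((le_max_left _ _).trans hj) ((le_max_right _ _).trans hj)).2
        rw [hconst j hj, hm] at h1
        have h2 : bi false = 0 := rfl
        rw [h2] at h1
        omega
      | true =>
        right
        intro j hj
        have h1 := (hstep j ((le_max_left _ _).trans hj) ((le_max_right _ _).trans hj)).2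
        rw [hconst j hj, hm] at h1
        have h2 : bi true = 1 := rfl
        rw [h2] at h1
        omega
    obtain ⟨j, hNj, hJj, hcase⟩ := hex
    refine ⟨fun i => if i ≤ j then e i else !(e (j + 1)), ⟨?_, fun i => ?_⟩, ?_, ?_⟩
    · show (if 0 ≤ j then e 0 else !(e (j + 1))) = false
      rw [if_pos (Nat.zero_le _)]
      exact he.1
    · show ok (c (i + 1) - c i) (if i ≤ j then e i else !(e (j + 1)))
        (if i + 1 ≤ j then e (i + 1) else !(e (j + 1)))
      rcases lt_trichotomy i j with hi | hi | hi
      · rw [if_pos hi.le, if_pos (by omega)]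
        exact he.2 i
      · subst hi
        rw [if_pos le_rfl, if_neg (by omega)]
        rcases hcase with ⟨h1, h2⟩ | ⟨h1, h2⟩
        · rw [h1, h2]
          exact ok_one_false _
        · rw [h1, h2]
          exact ok_zero_true _
      · rw [if_neg (by omega), if_neg (by omega)]
        exact ok_same (hJ' i (by omega)) _
    · intro h
      have h1 := congrFun h (j + 1)
      simp only [if_neg (show ¬ (j + 1 ≤ j) by omega)] at h1
      cases h2 : e (j + 1) <;> rw [h2] at h1 <;> simp at h1
    · intro i hi
      show (if i ≤ j then e i else !(e (j + 1))) = e i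
      rw [if_pos (by omega)]

lemma isClosed_PP (c : ℕ → ℤ) : IsClosed (PP c) := by
  have h1 : PP c = {e : ℕ → Bool | e 0 = false} ∩
      ⋂ j : ℕ, {e : ℕ → Bool | ok (c (j + 1) - c j) (e j) (e (j + 1))} := by
    ext e
    simp [PP]
  rw [h1]
  refine IsClosed.inter (isClosed_eq (continuous_apply 0) continuous_const) ?_
  refine isClosed_iInter fun j => ?_
  have h2 : Continuous (fun e : ℕ → Bool => (e j, e (j + 1))) :=
    (continuous_apply j).prodMk (continuous_apply (j + 1))
  exact (isClosed_discrete {p : Bool × Bool | ok (c (j + 1) - c j) p.1 p.2}).preimage h2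

theorem t_COMB : S_COMB := by
  intro c hinf hcount
  by_contra hEv
  have hcomp : CompactSpace (PP c) := isCompact_iff_compactSpace.1 (isClosed_PP c).isCompact
  have hne : Nonempty (PP c) := hinf.nonempty.to_subtype
  have hctb : Countable (PP c) := hcount.to_subtype
  obtain ⟨x, hx⟩ := nonempty_interior_of_iUnion_of_closed
    (f := fun x : PP c => ({x} : Set (PP c))) (fun x => isClosed_singleton)
    (by ext y; simp)
  have hopen : IsOpen ({x} : Set (PP c)) := by
    obtain ⟨y, hy⟩ := hx
    have hyx : y = x := by
      have := interior_subset hy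
      simpa using this
    have h1 : interior ({x} : Set (PP c)) = {x} := by
      apply Set.Subset.antisymm interior_subset
      intro z hz
      have hz' : z = x := by simpa using hz
      rw [hz', ← hyx]
      rwa [hyx] at hy ⊢
    rw [← h1]
    exact isOpen_interior
  choose e' he' hne' hag using fun N => no_isolated hinf hEv x.2 N
  have ht : Tendsto e' atTop (𝓝 x.1) := by
    rw [tendsto_pi_nhds]
    intro j
    refine tendsto_const_nhds.congr' ?_
    filter_upwards [eventually_ge_atTop j] with N hN
    exact (hag N j hN).symm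
  have ht' : Tendsto (fun N => (⟨e' N, he' N⟩ : PP c)) atTop (𝓝 x) := by
    rw [tendsto_subtype_rng]
    exact ht
  have hev := ht' (hopen.mem_nhds rfl)
  obtain ⟨N, hN⟩ := (mem_map.1 hev |> mem_atTop_sets.1)
  have h2 : (⟨e' N, he' N⟩ : PP c) = x := hN N le_rfl
  exact hne' N (congrArg Subtype.val h2)

end Pool.Agent.Run7.h437.CF982
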