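import Pool.Agent.Run7.h982.CF.Iface

/-!
# Piece `SUM` (helper437) of MP_c42e77_an, Q2 (helper982)
-/

set_option autoImplicit false

open Set Filter Topology

namespace Pool.Agent.Run7.h437.CF982

open Pool.Agent.Run7.h982.CF
open Pool.Agent.Results.MP_c42e77_an.ContinuumLevel

lemma fac_sum : Summable (fun n : ℕ => 1 / (n.factorial : ℝ)) := by
  simpa using Real.summable_pow_div_factorial 1

lemma b_pos (k : ℕ) : 0 < b k := by
  unfold b
  positivity

lemma b_succ (k : ℕ) : b (k + 1) = b k / ((k : ℝ) + 5) := by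
  unfold b
  rw [show k + 1 + 4 = (k + 4) + 1 by ring, Nat.factorial_succ]
  push_cast
  have h1 : ((k + 4).factorial : ℝ) ≠ 0 := by positivity
  have h2 : (k : ℝ) + 5 ≠ 0 := by positivity
  have h3 : (k : ℝ) + 4 + 1 ≠ 0 := by positivity
  field_simp
  ring

lemma b_succ_le (k : ℕ) : b (k + 1) ≤ b k * (1 / 5) := by
  rw [b_succ, div_eq_mul_one_div]
  refine mul_le_mul_of_nonneg_left ?_ (b_pos k).le
  apply one_div_le_one_div_of_le (by norm_num)
  have : (0 : ℝ) ≤ k := Nat.cast_nonneg k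
  linarith

lemma b_le_geo (k i : ℕ) : b (k + i) ≤ b k * (1 / 5) ^ i := by
  induction i with
  | zero => simp
  | succ i ih =>
    have h1 := b_succ_le (k + i)
    rw [pow_succ, ← mul_assoc]
    have h2 : b (k + (i + 1)) ≤ b (k + i) * (1 / 5) := h1
    exact h2.trans (mul_le_mul_of_nonneg_right ih (by norm_num))

lemma b_summable : Summable b := (summable_nat_add_iff 4).2 fac_sum

lemma b_shift_summable (k : ℕ) : Summable (fun i => b (k + i)) := by
  have h := (summable_nat_add_iff k).2 b_summable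
  refine h.congr fun i => ?_
  rw [add_comm]

lemma a_eq (k : ℕ) : a k = b k + a (k + 1) := by
  unfold a
  rw [(b_shift_summable k).tsum_eq_zero_add]
  congr 1
  refine tsum_congr fun i => ?_
  rw [show k + (i + 1) = k + 1 + i by ring]

lemma a_nonneg (k : ℕ) : 0 ≤ a k := tsum_nonneg fun i => (b_pos (k + i)).le

lemma a_pos (k : ℕ) : 0 < a k := by
  rw [a_eq]
  have := b_pos k
  have := a_nonneg (k + 1)
  linarith

lemma a_le (k : ℕ) : a k ≤ 5 / 4 * b k := by
  have hg : Summable (fun i : ℕ => b k * (1 / 5 : ℝ) ^ i) :=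
    (summable_geometric_of_lt_one (by norm_num) (by norm_num)).mul_left _
  have h1 : a k ≤ ∑' i : ℕ, b k * (1 / 5 : ℝ) ^ i :=
    (b_shift_summable k).tsum_le_tsum (b_le_geo k) hg
  rw [tsum_mul_left, tsum_geometric_of_lt_one (by norm_num) (by norm_num)] at h1
  have h2 : b k * (1 - 1 / 5 : ℝ)⁻¹ = 5 / 4 * b k := by
    norm_num
    ring
  rw [h2] at h1
  exact h1

lemma jb_le (j : ℕ) : ((j : ℝ) + 2) * b j ≤ 1 / ((j + 3).factorial : ℝ) := by
  unfold b
  rw [show j + 4 = (j + 3) + 1 by ring, Nat.factorial_succ]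
  push_cast
  have h1 : (0 : ℝ) < ((j + 3).factorial : ℝ) := by positivity
  rw [mul_one_div, div_le_div_iff₀ (by positivity) h1]
  have h2 : (0 : ℝ) ≤ j := Nat.cast_nonneg j
  nlinarith

lemma jb_summable : Summable (fun j : ℕ => ((j : ℝ) + 2) * b j) := by
  refine Summable.of_nonneg_of_le (fun j => ?_) jb_le ((summable_nat_add_iff 3).2 fac_sum)
  have := b_pos j
  positivity

lemma xs_even (k : ℕ) : xs (2 * k) = a k := by
  unfold xs
  rw [if_pos (by omega), show 2 * k / 2 = k by omega]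

lemma xs_odd (k : ℕ) : xs (2 * k + 1) = b k := by
  unfold xs
  rw [if_neg (by omega), show (2 * k + 1) / 2 = k by omega]

lemma a_summable : Summable a :=
  Summable.of_nonneg_of_le a_nonneg a_le (b_summable.mul_left _)

lemma bi_bd (u : Bool) : 0 ≤ ((bi u : ℤ) : ℝ) ∧ ((bi u : ℤ) : ℝ) ≤ 1 := by
  cases u <;> simp [bi]

lemma AA_succ (ε : ℕ → Bool) (j : ℕ) :
    ((AA ε (j + 1) : ℤ) : ℝ) = ((AA ε j : ℤ) : ℝ) + ((bi (ε (2 * j)) : ℤ) : ℝ) := by
  unfold AA
  rw [Finset.sum_range_succ]
  push_cast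
  ring

lemma AA_bd (ε : ℕ → Bool) (j : ℕ) :
    0 ≤ ((AA ε j : ℤ) : ℝ) ∧ ((AA ε j : ℤ) : ℝ) ≤ j := by
  induction j with
  | zero => simp [AA]
  | succ j ih =>
    rw [AA_succ]
    have := bi_bd (ε (2 * j))
    push_cast
    constructor <;> linarith [ih.1, ih.2, this.1, this.2]

/-- summation by parts -/
lemma parts (ε : ℕ → Bool) (N : ℕ) :
    ∑ k ∈ Finset.range N, ((bi (ε (2 * k)) : ℤ) : ℝ) * a k =
      (∑ j ∈ Finset.range N, ((AA ε (j + 1) : ℤ) : ℝ) * b j) + ((AA ε N : ℤ) : ℝ) * a N := by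
  induction N with
  | zero => simp [AA]
  | succ N ih =>
    rw [Finset.sum_range_succ, Finset.sum_range_succ, ih, AA_succ, a_eq N]
    ring

theorem t_SUM : S_SUM := by
  have hxpos : ∀ n, 0 < xs n := by
    intro n
    unfold xs
    split_ifs
    · exact a_pos _
    · exact b_pos _
  have hxs : Summable xs := by
    have h1 : Summable (fun k => xs (2 * k)) := a_summable.congr fun k => (xs_even k).symm
    have h2 : Summable (fun k => xs (2 * k + 1)) := b_summable.congr fun k => (xs_odd k).symm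
    exact (h1.hasSum.even_add_odd h2.hasSum).summable
  refine ⟨hxpos, hxs, ?_, ?_⟩
  · intro n
    obtain ⟨k, rfl | rfl⟩ := Nat.even_or_odd' n
    · rw [xs_odd, xs_even, a_eq]
      have := a_pos (k + 1)
      linarith
    · rw [show 2 * k + 1 + 1 = 2 * (k + 1) by ring, xs_odd, xs_even]
      have h1 := a_le (k + 1)
      have h2 := b_succ_le k
      have h3 := b_pos k
      linarith
  · intro ε
    have hA : Summable (fun j => ((AA ε (j + 1) : ℤ) : ℝ) * b j) := by
      refine Summable.of_nonneg_of_le (fun j => ?_) (fun j => ?_) jb_summable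
      · exact mul_nonneg (AA_bd ε (j + 1)).1 (b_pos j).le
      · refine mul_le_mul_of_nonneg_right ?_ (b_pos j).le
        have := (AA_bd ε (j + 1)).2
        push_cast at this
        linarith
    have hB : Summable (fun j => ((bi (ε (2 * j + 1)) : ℤ) : ℝ) * b j) := by
      refine Summable.of_nonneg_of_le (fun j => ?_) (fun j => ?_) b_summable
      · exact mul_nonneg (bi_bd _).1 (b_pos j).le
      · have := mul_le_mul_of_nonneg_right (bi_bd (ε (2 * j + 1))).2 (b_pos j).le
        rwa [one_mul] at this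
    have hα : Summable (fun k => ((bi (ε (2 * k)) : ℤ) : ℝ) * a k) := by
      refine Summable.of_nonneg_of_le (fun j => ?_) (fun j => ?_) a_summable
      · exact mul_nonneg (bi_bd _).1 (a_nonneg j)
      · have := mul_le_mul_of_nonneg_right (bi_bd (ε (2 * j))).2 (a_nonneg j)
        rwa [one_mul] at this
    have hcc : (fun j => (cc ε (j + 1) : ℝ) * b j) =
        fun j => ((bi (ε (2 * j + 1)) : ℤ) : ℝ) * b j + ((AA ε (j + 1) : ℤ) : ℝ) * b j := by
      funext j
      have h1 : cc ε (j + 1) = bi (ε (2 * j + 1)) + AA ε (j + 1) := rfl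
      rw [h1]
      push_cast
      ring
    have hlim0 : Tendsto (fun N : ℕ => ((AA ε N : ℤ) : ℝ) * a N) atTop (𝓝 0) := by
      have h1 : Tendsto (fun N : ℕ => 5 / 4 * (((N : ℝ) + 2) * b N)) atTop (𝓝 0) := by
        have := jb_summable.tendsto_atTop_zero.const_mul (5 / 4 : ℝ)
        rwa [mul_zero] at this
      refine squeeze_zero (fun N => mul_nonneg (AA_bd ε N).1 (a_nonneg N)) (fun N => ?_) h1
      have h2 := (AA_bd ε N).2
      have h3 : ((AA ε N : ℤ) : ℝ) ≤ (N : ℝ) + 2 := by linarith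
      calc ((AA ε N : ℤ) : ℝ) * a N ≤ ((N : ℝ) + 2) * (5 / 4 * b N) :=
            mul_le_mul h3 (a_le N) (a_nonneg N) (by positivity)
        _ = 5 / 4 * (((N : ℝ) + 2) * b N) := by ring
    have hexch : ∑' k, ((bi (ε (2 * k)) : ℤ) : ℝ) * a k =
        ∑' j, ((AA ε (j + 1) : ℤ) : ℝ) * b j := by
      have h1 := hα.hasSum.tendsto_sum_nat
      have h2 := hA.hasSum.tendsto_sum_nat.add hlim0
      rw [add_zero] at h2
      have h3 : (fun N : ℕ => ∑ k ∈ Finset.range N, ((bi (ε (2 * k)) : ℤ) : ℝ) * a k) =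
          fun N : ℕ => (∑ j ∈ Finset.range N, ((AA ε (j + 1) : ℤ) : ℝ) * b j) +
            ((AA ε N : ℤ) : ℝ) * a N := funext (parts ε)
      rw [h3] at h1
      exact tendsto_nhds_unique h1 h2
    refine ⟨by rw [hcc]; exact hB.add hA, ?_⟩
    rw [hcc, hB.tsum_add hA, ← hexch]
    unfold subsum
    have he : ∀ k, (if ε (2 * k) = true then xs (2 * k) else 0) =
        ((bi (ε (2 * k)) : ℤ) : ℝ) * a k := by
      intro k
      rw [xs_even]
      cases ε (2 * k) <;> simp [bi]
    have ho : ∀ k, (if ε (2 * k + 1) = true then xs (2 * k + 1) else 0) =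
        ((bi (ε (2 * k + 1)) : ℤ) : ℝ) * b k := by
      intro k
      rw [xs_odd]
      cases ε (2 * k + 1) <;> simp [bi]
    have h1 : HasSum (fun k => if ε (2 * k) = true then xs (2 * k) else 0)
        (∑' k, ((bi (ε (2 * k)) : ℤ) : ℝ) * a k) := by
      rw [show (fun k => if ε (2 * k) = true then xs (2 * k) else 0) =
        fun k => ((bi (ε (2 * k)) : ℤ) : ℝ) * a k from funext he]
      exact hα.hasSum
    have h2 : HasSum (fun k => if ε (2 * k + 1) = true then xs (2 * k + 1) else 0)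
        (∑' k, ((bi (ε (2 * k + 1)) : ℤ) : ℝ) * b k) := by
      rw [show (fun k => if ε (2 * k + 1) = true then xs (2 * k + 1) else 0) =
        fun k => ((bi (ε (2 * k + 1)) : ℤ) : ℝ) * b k from funext ho]
      exact hB.hasSum
    have h3 := HasSum.even_add_odd (f := fun n => if ε n = true then xs n else 0) h1 h2
    rw [h3.tsum_eq, add_comm]

end Pool.Agent.Run7.h437.CF982
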